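import Mathlib
import Pool.Agent.W_MP_b723a0_ag.P.Final

namespace Pool.Agent.Results.MP_b723a0_ag.SharpIndex

/-- Let `K` be a finite extension of `ℚ_p`, `f` a form of degree `d ≥ 1` in `n + 1` variables
over `K` and `ℓ` any prime number (`ℓ = p` is allowed). If `n ≥ d ℓ ^ v`, where `v` is the
exponent of `ℓ` in `d` (in particular if `n ≥ d ^ 2`), then `f` has a nontrivial zero in a finite
extension of `K` of degree prime to `ℓ`. -/
theorem result : ∀ (p : ℕ) [Fact p.Prime] (K : Type) [Field K] [Algebra ℚ_[p] K]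
    [FiniteDimensional ℚ_[p] K] (n d : ℕ) (f : MvPolynomial (Fin (n + 1)) K),
    1 ≤ d → f.IsHomogeneous d →
    ∀ ℓ : ℕ, ℓ.Prime → d * ℓ ^ padicValNat ℓ d ≤ n →
      ∃ (L : Type) (_ : Field L) (_ : Algebra K L),
        FiniteDimensional K L ∧ ¬ ℓ ∣ Module.finrank K L ∧
        ∃ x : Fin (n + 1) → L, x ≠ 0 ∧ MvPolynomial.aeval x f = 0 := by
  intro p _ K _ _ _ n d f hd hf ℓ hℓ hmul
  by_cases hne : ℓ = p
  · subst hne
    refine Pool.Agent.W_MP_b723a0_ag.P.final_of_system ℓ K n d f hf ℓ fun G hG => ?_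
    refine Pool.Agent.W_MP_b723a0_ag.P.system_zero_zp_p _ (Module.finrank ℚ_[ℓ] K) d
      Module.finrank_pos hd G hG ?_
    rw [Fintype.card_prod, Fintype.card_fin, Fintype.card_fin]
    exact Nat.mul_le_mul_left _ (Nat.succ_le_succ hmul)
  · exact Pool.Agent.W_MP_b723a0_ag.main p K n d f hd hf ℓ hℓ (Or.inl ⟨hne, hmul⟩)

end Pool.Agent.Results.MP_b723a0_ag.SharpIndex
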